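import Pool.Agent.Helper916.CE.R01
import Pool.Agent.Helper916.CE.R02
import Pool.Agent.Helper916.CE.R03
import Pool.Agent.Helper916.CE.R04
import Pool.Agent.Helper916.CE.R05
import Pool.Agent.Helper916.CE.R06
import Pool.Agent.Helper916.CE.R07
import Pool.Agent.Helper916.CE.R08
import Pool.Agent.Helper916.CE.R09
import Pool.Agent.Helper916.CE.R10
import Pool.Agent.Helper916.CE.R11
import Pool.Agent.Helper916.CE.R12
import Pool.Agent.Helper916.CE.R13
import Pool.Agent.Helper916.CE.R14
import Pool.Agent.Helper916.CE.R15
import Pool.Agent.Helper916.CE.R16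
import Pool.Agent.Helper916.CE.R17
import Pool.Agent.Helper916.CE.R18
import Pool.Agent.Helper916.CE.R19
import Pool.Agent.Helper916.CE.R20
import Pool.Agent.Helper916.CE.R21
import Pool.Agent.Helper916.CE.R22
import Pool.Agent.Helper916.CE.R23
import Pool.Agent.Helper916.CE.R24
import Pool.Agent.Helper916.CE.R25
import Pool.Agent.Helper916.CE.R26
import Pool.Agent.Helper916.CE.R27
import Pool.Agent.Helper916.CE.R28
import Pool.Agent.Helper916.CE.R29
import Pool.Agent.Helper916.CE.R30
import Pool.Agent.Helper916.CE.R31
import Pool.Agent.Helper916.CE.R32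
import Pool.Agent.Helper916.CE.R33
import Pool.Agent.Helper916.CE.R34
import Pool.Agent.Helper916.CE.R35
import Pool.Agent.Helper916.CE.R36
import Pool.Agent.Helper916.CE.R37
import Pool.Agent.Helper916.CE.R38
import Pool.Agent.Helper916.CE.R39
import Pool.Agent.Helper916.CE.R40
import Pool.Agent.Helper916.CE.R41

set_option autoImplicit false

namespace Pool.Agent.Helper916.CE

theorem allRows (a : Nat) (h1 : 1 ≤ a) (h2 : a ≤ 2730) : RowEx a := by
  rcases Nat.lt_or_ge a 35 with h | h
  · exact s34 a (by omega) h
  rcases Nat.lt_or_ge a 69 with h | h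
  · exact s68 a (by omega) h
  rcases Nat.lt_or_ge a 104 with h | h
  · exact s103 a (by omega) h
  rcases Nat.lt_or_ge a 139 with h | h
  · exact s138 a (by omega) h
  rcases Nat.lt_or_ge a 175 with h | h
  · exact s174 a (by omega) h
  rcases Nat.lt_or_ge a 211 with h | h
  · exact s210 a (by omega) h
  rcases Nat.lt_or_ge a 248 with h | h
  · exact s247 a (by omega) h
  rcases Nat.lt_or_ge a 285 with h | h
  · exact s284 a (by omega) h
  rcases Nat.lt_or_ge a 323 with h | h
  · exact s322 a (by omega) h
  rcases Nat.lt_or_ge a 362 with h | h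
  · exact s361 a (by omega) h
  rcases Nat.lt_or_ge a 401 with h | h
  · exact s400 a (by omega) h
  rcases Nat.lt_or_ge a 441 with h | h
  · exact s440 a (by omega) h
  rcases Nat.lt_or_ge a 482 with h | h
  · exact s481 a (by omega) h
  rcases Nat.lt_or_ge a 523 with h | h
  · exact s522 a (by omega) h
  rcases Nat.lt_or_ge a 565 with h | h
  · exact s564 a (by omega) h
  rcases Nat.lt_or_ge a 608 with h | h
  · exact s607 a (by omega) h
  rcases Nat.lt_or_ge a 652 with h | h
  · exact s651 a (by omega) h
  rcases Nat.lt_or_ge a 697 with h | h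
  · exact s696 a (by omega) h
  rcases Nat.lt_or_ge a 743 with h | h
  · exact s742 a (by omega) h
  rcases Nat.lt_or_ge a 790 with h | h
  · exact s789 a (by omega) h
  rcases Nat.lt_or_ge a 838 with h | h
  · exact s837 a (by omega) h
  rcases Nat.lt_or_ge a 887 with h | h
  · exact s886 a (by omega) h
  rcases Nat.lt_or_ge a 938 with h | h
  · exact s937 a (by omega) h
  rcases Nat.lt_or_ge a 990 with h | h
  · exact s989 a (by omega) h
  rcases Nat.lt_or_ge a 1044 with h | h
  · exact s1043 a (by omega) h
  rcases Nat.lt_or_ge a 1100 with h | h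
  · exact s1099 a (by omega) h
  rcases Nat.lt_or_ge a 1158 with h | h
  · exact s1157 a (by omega) h
  rcases Nat.lt_or_ge a 1218 with h | h
  · exact s1217 a (by omega) h
  rcases Nat.lt_or_ge a 1281 with h | h
  · exact s1280 a (by omega) h
  rcases Nat.lt_or_ge a 1346 with h | h
  · exact s1345 a (by omega) h
  rcases Nat.lt_or_ge a 1415 with h | h
  · exact s1414 a (by omega) h
  rcases Nat.lt_or_ge a 1487 with h | h
  · exact s1486 a (by omega) h
  rcases Nat.lt_or_ge a 1564 with h | h
  · exact s1563 a (by omega) h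
  rcases Nat.lt_or_ge a 1646 with h | h
  · exact s1645 a (by omega) h
  rcases Nat.lt_or_ge a 1735 with h | h
  · exact s1734 a (by omega) h
  rcases Nat.lt_or_ge a 1833 with h | h
  · exact s1832 a (by omega) h
  rcases Nat.lt_or_ge a 1943 with h | h
  · exact s1942 a (by omega) h
  rcases Nat.lt_or_ge a 2072 with h | h
  · exact s2071 a (by omega) h
  rcases Nat.lt_or_ge a 2233 with h | h
  · exact s2232 a (by omega) h
  rcases Nat.lt_or_ge a 2483 with h | h
  · exact s2482 a (by omega) h
  exact s2730 a (by omega) (by omega)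

end Pool.Agent.Helper916.CE
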