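import Pool.Agent.Helper916.CE.Tab

set_option autoImplicit false

namespace Pool.Agent.Helper916.CE

def f3 (A C b e l g : Nat) : Nat :=
  Nat.mul
     (Nat.add (Nat.add (Nat.sub (Nat.gcd e 8190) 1) (Nat.sub (Nat.add A b) 8190))
      (Nat.mod (Nat.sub (Nat.add (Nat.add A (Nat.mul e l)) 8190) C) 8190))
     (Nat.sub 3 (Nat.gcd g l))

def f2 (b y e S Q T l s g : Nat) : Nat :=
  f3 (Nat.mod (Nat.mul b (Nat.land (Nat.shiftRight Q y) 65535)) 8191)
   (Nat.mod (Nat.mul (Nat.mul b (Nat.land (Nat.shiftRight S y) 65535))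
    (Nat.land (Nat.shiftRight T (Nat.add y (Nat.mul 16 s))) 65535)) 8191) b e l g

/-- the check of one class -/
def chk (a g S Q T l s c : Nat) : Nat :=
  f2 (Nat.mod (Nat.mul (Nat.land c 8191) a) 8190) (Nat.land (Nat.shiftRight c 9) 2032)
    (Nat.land c 8191) S Q T l s g

/-- the check of `m` consecutive classes -/
def chunk (a g S Q T D l m : Nat) : Nat :=
  Nat.rec (motive := fun _ => Nat) 0 (fun s ih => Nat.add
    (chk a g S Q T (Nat.add l s) s (Nat.land (Nat.shiftRight D (Nat.mul 20 s)) 1048575)) ih) m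

/-- the check of `m` consecutive classes starting at `s`, certificates packed in `d` -/
def bigchunk (a y0 S Q d s m : Nat) : Nat :=
  chunk a (Nat.gcd a 8190) S Q
    (Nat.mod (Nat.shiftRight TV (Nat.mul 16 (Nat.add y0 (Nat.add (Nat.add a a) s))))
      (Nat.pow 2 (Nat.mul 16 384)))
    d (Nat.add (Nat.add a a) s) m

/-- the check of the full blocks of 256 classes -/
noncomputable def blocks (a y0 S Q : Nat) (L : List Nat) : Nat → Nat :=
  List.rec (motive := fun _ => Nat → Nat) (fun _ => 0)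
    (fun d _ ih s => Nat.add (bigchunk a y0 S Q d s 256) (ih (Nat.add s 256))) L

/-- the check of the small tables -/
def stab (a y0 S Q : Nat) (y : Nat) : Nat :=
  Nat.add (Nat.sub 1 (Nat.mod (Nat.mul (look S y) (Nat.sub (Nat.add (look TV (Nat.add (Nat.add y0 y) a)) 8191)
    (look TV (Nat.add y0 y)))) 8191))
   (Nat.add (Nat.sub (Nat.mod (Nat.mul (look S y) (Nat.sub (Nat.add (look TV (Nat.add (Nat.add y0 y) a)) 8191)
    (look TV (Nat.add y0 y)))) 8191) 1)
   (ndist (Nat.mod (Nat.mul (look S y) (look TV (Nat.add y0 y))) 8191) (look Q y)))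

/-- the check of a row -/
noncomputable def row (a y0 S Q E m : Nat) (L : List Nat) : Nat :=
  Nat.add (sumTo (stab a y0 S Q) 128)
    (Nat.add (bigchunk a y0 S Q E (Nat.mul 256 L.length) m) (blocks a y0 S Q L 0))

/-- all the classes of the row `a` are good -/
def RowEx (a : Nat) : Prop :=
  ∃ (y0 S Q E m : Nat) (L : List Nat), y0 ≤ 502 ∧ 256 * L.length + m + 3 * a = 8191 ∧ m < 256 ∧
    row a y0 S Q E m L = 0

theorem baseRow (lo : Nat) : ∀ a, lo ≤ a → a < lo → RowEx a :=
  fun _ h1 h2 => absurd h2 (Nat.not_lt.2 h1)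

theorem stepRow {lo m : Nat} (h : ∀ a, lo ≤ a → a < m → RowEx a) (h2 : RowEx m) :
    ∀ a, lo ≤ a → a < m + 1 → RowEx a := by
  intro a h3 h4
  rcases Nat.lt_or_ge a m with h5 | h5
  · exact h a h3 h5
  · have : a = m := Nat.le_antisymm (Nat.le_of_lt_succ h4) h5
    rw [this]
    exact h2

end Pool.Agent.Helper916.CE
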