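import Mathlib
import Pool.Agent.Helper916.CE.Chk

set_option autoImplicit false

namespace Pool.Agent.Helper916.CE

theorem sumTo_zero {f : ℕ → ℕ} {n : ℕ} (h : sumTo f n = 0) : ∀ s < n, f s = 0 := by
  induction n with
  | zero => intro s hs; omega
  | succ n ih =>
    have h' : f n + sumTo f n = 0 := h
    intro s hs
    rcases Nat.lt_succ_iff_lt_or_eq.1 hs with h1 | h1
    · exact ih (by omega) s h1
    · subst h1; omega

theorem sum2_zero {f : ℕ → ℕ} {n : ℕ} (h : sum2 f n = 0) : ∀ s < 256 * n, f s = 0 := by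
  intro s hs
  have h1 := sumTo_zero h (s / 256) (by omega)
  have h2 := sumTo_zero h1 (s % 256) (by omega)
  have h3 : f (256 * (s / 256) + s % 256) = 0 := h2
  rwa [Nat.div_add_mod] at h3

theorem ndist_zero {a b : ℕ} (h : ndist a b = 0) : a = b := by
  have h' : (a - b) + (b - a) = 0 := h
  omega

/-- the Zech type table -/
def V (z : ℕ) : ℕ := look TV z

theorem look_eq (T i : ℕ) : look T i = T / 2 ^ (16 * i) % 65536 := by
  unfold look
  change (T >>> (16 * i)) &&& 65535 = _
  rw [Nat.shiftRight_eq_div_pow]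
  exact Nat.and_two_pow_sub_one_eq_mod _ 16

theorem look_window (T w y s : ℕ) (h : y + s < 384) :
    Nat.land (Nat.shiftRight (Nat.mod (Nat.shiftRight T (Nat.mul 16 w))
      (Nat.pow 2 (Nat.mul 16 384))) (Nat.add (Nat.mul 16 y) (Nat.mul 16 s))) 65535 =
      look T (w + y + s) := by
  unfold look
  change ((T >>> (16 * w)) % 2 ^ (16 * 384)) >>> (16 * y + 16 * s) &&& 65535 =
    (T >>> (16 * (w + y + s))) &&& 65535
  apply Nat.eq_of_testBit_eq
  intro i
  have e65535 : (65535 : ℕ) = 2 ^ 16 - 1 := rfl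
  rw [Nat.testBit_and, Nat.testBit_and, e65535, Nat.testBit_two_pow_sub_one,
    Nat.testBit_shiftRight, Nat.testBit_shiftRight, Nat.testBit_mod_two_pow,
    Nat.testBit_shiftRight]
  by_cases hi : i < 16
  · have h1 : 16 * y + 16 * s + i < 16 * 384 := by omega
    have h2 : 16 * w + (16 * y + 16 * s + i) = 16 * (w + y + s) + i := by ring
    rw [h2]
    simp [hi, h1]
  · simp [hi]

theorem y_field (c : ℕ) : Nat.land (Nat.shiftRight c 9) 2032 =
    16 * (Nat.land (Nat.shiftRight c 13) 127) := by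
  change (c >>> 9) &&& 2032 = 16 * ((c >>> 13) &&& 127)
  apply Nat.eq_of_testBit_eq
  intro i
  have e1 : (2032 : ℕ) = 16 * 127 := rfl
  have e2 : (16 : ℕ) = 2 ^ 4 := rfl
  rw [Nat.testBit_and, Nat.testBit_shiftRight, e1, e2, Nat.testBit_two_pow_mul,
    Nat.testBit_two_pow_mul, Nat.testBit_and, Nat.testBit_shiftRight]
  by_cases hi : 4 ≤ i
  · have : 13 + (i - 4) = 9 + i := by omega
    rw [this]
    simp [hi]
  · simp [hi]

theorem land127_lt (c : ℕ) : Nat.land (Nat.shiftRight c 13) 127 < 128 := by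
  change (c >>> 13) &&& 127 < 128
  have : (127 : ℕ) = 2 ^ 7 - 1 := rfl
  rw [this, Nat.and_two_pow_sub_one_eq_mod]
  exact Nat.mod_lt _ (by norm_num)

theorem V_bound0 (z : ℕ) (hz : z < 8190) : 1 ≤ V z ∧ V z ≤ 8190 := by
  have h : fS z = 0 := by
    rcases Nat.lt_or_ge z 7936 with h | h
    · exact sum2_zero tS z h
    · have := sumTo_zero tS' (z - 7936) (by omega)
      have h2 : fS (7936 + (z - 7936)) = 0 := this
      rwa [Nat.add_sub_cancel' h] at h2
  have h' : (look TV z - 8190) + (1 - look TV z) = 0 := h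
  unfold V
  omega

theorem auxS (a b : ℕ) : Nat.shiftRight a b = a >>> b := rfl
theorem auxM (a b : ℕ) : Nat.mod a b = a % b := rfl
theorem auxP (a b : ℕ) : Nat.pow a b = a ^ b := rfl
theorem auxX (a b : ℕ) : Nat.mul a b = a * b := rfl

theorem per_aux (T z A B : ℕ) (hz : z < B)
    (h : perOK T A B = true) : look T (z + A) = look T z := by
  replace h := Nat.eq_of_beq_eq_true h
  rw [auxS, auxM, auxP, auxX, auxX] at h
  unfold look
  change (T >>> (16 * (z + A))) &&& 65535 = (T >>> (16 * z)) &&& 65535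
  have h2 : T >>> (16 * (z + A)) = (T % 2 ^ (16 * B)) >>> (16 * z) := by
    rw [← h, ← Nat.shiftRight_add]
    congr 1
    ring
  rw [h2]
  apply Nat.eq_of_testBit_eq
  intro i
  have e65535 : (65535 : ℕ) = 2 ^ 16 - 1 := rfl
  rw [Nat.testBit_and, Nat.testBit_and, e65535, Nat.testBit_two_pow_sub_one,
    Nat.testBit_shiftRight, Nat.testBit_shiftRight, Nat.testBit_mod_two_pow]
  by_cases hi : i < 16
  · have h1 : 16 * z + i < 16 * B := by omega
    simp [hi, h1]
  · simp [hi]

theorem V_per (z : ℕ) (hz : z < 640) : V (z + 8190) = V z :=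
  per_aux TV z 8190 640 hz tper

theorem V_mod (z : ℕ) (hz : z < 8830) : V z = V (z % 8190) := by
  rcases Nat.lt_or_ge z 8190 with h | h
  · rw [Nat.mod_eq_of_lt h]
  · have h1 : z % 8190 = z - 8190 := by omega
    rw [h1]
    have := V_per (z - 8190) (by omega)
    rwa [Nat.sub_add_cancel h] at this

theorem V_bound (z : ℕ) (hz : z < 8830) : 1 ≤ V z ∧ V z ≤ 8190 := by
  rw [V_mod z hz]
  exact V_bound0 _ (Nat.mod_lt _ (by norm_num))

/-- a good class of triples -/
def Cls (k l : ℕ) : Prop :=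
  3 ≤ Nat.gcd (Nat.gcd k 8190) l ∨ ∃ y r e : ℕ, Nat.Coprime e 8190 ∧ ¬ 8191 ∣ r ∧
    (r * V (y % 8190) % 8191 + e * k) % 8190 = (r * V ((y + k) % 8190) % 8191) % 8190 ∧
    (r * V (y % 8190) % 8191 + e * l) % 8190 = (r * V ((y + l) % 8190) % 8191) % 8190

theorem f3_zero {A C b e l g : ℕ} (h : f3 A C b e l g = 0) (hC : C ≤ 8190) :
    3 ≤ Nat.gcd g l ∨ (Nat.Coprime e 8190 ∧ A + b ≤ 8190 ∧ (A + e * l) % 8190 = C % 8190) := by
  have h' : ((Nat.gcd e 8190 - 1) + ((A + b) - 8190) + ((A + e * l + 8190 - C) % 8190)) *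
      (3 - Nat.gcd g l) = 0 := h
  rcases Nat.mul_eq_zero.1 h' with h1 | h1
  · right
    have hg : 0 < Nat.gcd e 8190 := Nat.gcd_pos_of_pos_right _ (by norm_num)
    refine ⟨?_, by omega, ?_⟩
    · unfold Nat.Coprime; omega
    · have h2 : (A + e * l + 8190 - C) % 8190 = 0 := by omega
      generalize e * l = X at h2 ⊢
      omega
  · left; omega

theorem chk_sound (a y0 S Q s0 s c : ℕ) (ha : 1 ≤ a) (ha' : a ≤ 2730) (hy0 : y0 ≤ 502)
    (hs : s < 256) (hl : a + a + s0 + s + a ≤ 8190)
    (hst : ∀ y < 128, stab a y0 S Q y = 0)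
    (h : chk a (Nat.gcd a 8190) S Q
      (Nat.mod (Nat.shiftRight TV (Nat.mul 16 (Nat.add y0 (Nat.add (Nat.add a a) s0))))
        (Nat.pow 2 (Nat.mul 16 384))) (Nat.add (Nat.add (Nat.add a a) s0) s) s c = 0) :
    Cls a (a + a + s0 + s) := by
  unfold chk f2 at h
  rw [y_field c] at h
  set y := Nat.land (Nat.shiftRight c 13) 127 with hy
  have hy128 : y < 128 := land127_lt c
  set e := Nat.land c 8191 with he
  have hT : Nat.land (Nat.shiftRight (Nat.mod (Nat.shiftRight TV (Nat.mul 16
      (Nat.add y0 (Nat.add (Nat.add a a) s0)))) (Nat.pow 2 (Nat.mul 16 384)))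
      (Nat.add (16 * y) (Nat.mul 16 s))) 65535 = V (y0 + y + (a + a + s0 + s)) := by
    have := look_window TV (Nat.add y0 (Nat.add (Nat.add a a) s0)) y s (by omega)
    refine this.trans ?_
    unfold V
    congr 1
    change (y0 + (a + a + s0)) + y + s = _
    ring
  rw [hT] at h
  set b := Nat.mod (Nat.mul e a) 8190 with hb
  have hbv : b = e * a % 8190 := rfl
  have hSy : Nat.land (Nat.shiftRight S (16 * y)) 65535 = look S y := rfl
  have hQy : Nat.land (Nat.shiftRight Q (16 * y)) 65535 = look Q y := rfl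
  rw [hSy, hQy] at h
  have hC : Nat.mod (Nat.mul (Nat.mul b (look S y)) (V (y0 + y + (a + a + s0 + s)))) 8191 ≤ 8190 :=
    Nat.lt_succ_iff.1 (Nat.mod_lt _ (by norm_num))
  rcases f3_zero h hC with h1 | ⟨hcop, hAb, hCe⟩
  · left
    exact h1
  · right
    have hs1 := hst y hy128
    unfold stab at hs1
    set X := Nat.mod (Nat.mul (look S y) (Nat.sub (Nat.add (look TV (Nat.add (Nat.add y0 y) a)) 8191)
      (look TV (Nat.add y0 y)))) 8191 with hX
    have hs2 : (1 - X) + ((X - 1) + ndist (Nat.mod (Nat.mul (look S y)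
      (look TV (Nat.add y0 y))) 8191) (look Q y)) = 0 := hs1
    have hX1 : X = 1 := by omega
    have hQ1 : look S y * V (y0 + y) % 8191 = look Q y := ndist_zero (by
      have : ndist (Nat.mod (Nat.mul (look S y) (look TV (Nat.add y0 y))) 8191) (look Q y) = 0 := by
        omega
      exact this)
    have hX2 : look S y * (V (y0 + y + a) + 8191 - V (y0 + y)) % 8191 = 1 := by
      rw [hX] at hX1; exact hX1
    obtain ⟨hv1, hv2⟩ := V_bound (y0 + y) (by omega)
    set v := V (y0 + y) with hv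
    set v' := V (y0 + y + a) with hv'
    have hA : Nat.mod (Nat.mul b (look Q y)) 8191 = (b * look S y) * v % 8191 := by
      change b * look Q y % 8191 = _
      rw [← hQ1, Nat.mul_mod, Nat.mod_mod, ← Nat.mul_mod, mul_assoc]
    rw [hA] at hAb hCe
    -- the value at the second position
    have hB : (b * look S y) * v' % 8191 = (b * look S y) * v % 8191 + b := by
      have hb8 : b < 8190 := Nat.mod_lt _ (by norm_num)
      have e1 : (b * look S y) * v' ≡ (b * look S y) * v % 8191 + b [MOD 8191] := by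
        have e2 : (b * look S y) * v' + b * (look S y * 8191) =
            b * (look S y * (v' + 8191 - v)) + (b * look S y) * v := by
          have : v' + 8191 - v + v = v' + 8191 := by omega
          calc (b * look S y) * v' + b * (look S y * 8191) = b * look S y * (v' + 8191) := by ring
            _ = b * look S y * (v' + 8191 - v + v) := by rw [this]
            _ = _ := by ring
        have e3 : look S y * (v' + 8191 - v) ≡ 1 [MOD 8191] := by
          rw [Nat.ModEq, hX2]
        have e4 : (b * look S y) * v' + b * (look S y * 8191) ≡ b * 1 + (b * look S y) * v [MOD 8191] := by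
          rw [e2]
          exact (e3.mul_left b).add_right _
        have e5 : (b * look S y) * v' + b * (look S y * 8191) ≡ (b * look S y) * v' [MOD 8191] := by
          have : b * (look S y * 8191) = (b * look S y) * 8191 := by ring
          rw [this, Nat.ModEq, Nat.add_mul_mod_self_right]
        refine e5.symm.trans (e4.trans ?_)
        rw [mul_one, add_comm]
        exact (Nat.ModEq.add_right _ (Nat.mod_modEq _ _).symm)
      have e6 : ((b * look S y) * v % 8191 + b) % 8191 = (b * look S y) * v % 8191 + b :=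
        Nat.mod_eq_of_lt (by omega)
      rw [Nat.ModEq, e6] at e1
      exact e1
    refine ⟨y0 + y, b * look S y, e, hcop, ?_, ?_, ?_⟩
    · intro hdvd
      have hp : Nat.Prime 8191 := by norm_num
      rcases (Nat.Prime.dvd_mul hp).1 hdvd with h2 | h2
      · have hb0 : b = 0 := Nat.eq_zero_of_dvd_of_lt h2 (lt_trans (Nat.mod_lt _ (by norm_num)) (by norm_num))
        rw [hbv] at hb0
        have h3 : 8190 ∣ e * a := Nat.dvd_of_mod_eq_zero hb0
        have h4 : 8190 ∣ a := (Nat.Coprime.dvd_of_dvd_mul_left hcop.symm h3)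
        have := Nat.le_of_dvd (by omega) h4
        omega
      · have : look S y * (v' + 8191 - v) % 8191 = 0 :=
          Nat.mod_eq_zero_of_dvd (h2.mul_right _)
        omega
    · rw [← V_mod (y0 + y) (by omega), ← V_mod (y0 + y + a) (by omega), ← hv, ← hv', hB]
      have hm1 : e * a ≡ b [MOD 8190] := (Nat.mod_modEq _ _).symm
      exact Nat.ModEq.add_left _ hm1
    · rw [← V_mod (y0 + y) (by omega), ← V_mod (y0 + y + (a + a + s0 + s)) (by omega), ← hv]
      exact hCe

theorem blocks_cons (a y0 S Q d : ℕ) (L : List ℕ) (s : ℕ) :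
    blocks a y0 S Q (d :: L) s =
      Nat.add (bigchunk a y0 S Q d s 256) (blocks a y0 S Q L (Nat.add s 256)) := rfl

theorem nadd_zero (x y : ℕ) (h : Nat.add x y = 0) : x = 0 ∧ y = 0 := by
  have h' : x + y = 0 := h
  omega

theorem blocks_zero (a y0 S Q : ℕ) (L : List ℕ) : ∀ s0 : ℕ, blocks a y0 S Q L s0 = 0 →
    ∀ k < L.length, ∃ d, bigchunk a y0 S Q d (s0 + 256 * k) 256 = 0 := by
  induction L with
  | nil =>
    intro s0 _ k hk
    exact absurd hk (Nat.not_lt_zero k)
  | cons d L ih =>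
    intro s0 h k hk
    obtain ⟨hx, hy⟩ := nadd_zero _ _ ((blocks_cons a y0 S Q d L s0).symm.trans h)
    rcases Nat.eq_zero_or_pos k with rfl | hk0
    · refine ⟨d, ?_⟩
      rw [Nat.mul_zero, Nat.add_zero]
      exact hx
    · obtain ⟨d', hd'⟩ := ih (Nat.add s0 256) hy (k - 1) (by
        rw [List.length_cons] at hk
        omega)
      refine ⟨d', ?_⟩
      have e : Nat.add s0 256 + 256 * (k - 1) = s0 + 256 * k := by
        change s0 + 256 + 256 * (k - 1) = s0 + 256 * k
        omega
      rw [e] at hd'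
      exact hd'

theorem row_sound (a y0 S Q E m : ℕ) (L : List ℕ) (ha : 1 ≤ a) (ha' : a ≤ 2730) (hy0 : y0 ≤ 502)
    (hn : 256 * L.length + m + 3 * a = 8191) (hm : m < 256)
    (h : row a y0 S Q E m L = 0) : ∀ l, a + a ≤ l → l + a ≤ 8190 → Cls a l := by
  intro l hl1 hl2
  obtain ⟨h'1, h'2⟩ := nadd_zero _ _ h
  obtain ⟨hb1', hb2'⟩ := nadd_zero _ _ h'2
  have hst : ∀ y < 128, stab a y0 S Q y = 0 := sumTo_zero h'1
  have hb1 : bigchunk a y0 S Q E (256 * L.length) m = 0 := hb1'
  have hb2 := blocks_zero a y0 S Q L 0 hb2'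
  set t := l - (a + a) with ht
  have key : ∀ (d s0 m' : ℕ), bigchunk a y0 S Q d s0 m' = 0 → ∀ s < m', s < 256 →
      a + a + s0 + s + a ≤ 8190 → Cls a (a + a + s0 + s) := by
    intro d s0 m' hbc s hsm hs hle
    have h1 : ∀ s < m', _ := sumTo_zero (n := m') hbc
    exact chk_sound a y0 S Q s0 s _ ha ha' hy0 hs hle hst (h1 s hsm)
  set n := L.length with hnn
  rcases Nat.lt_or_ge t (256 * n) with h1 | h1
  · obtain ⟨d, hd⟩ := hb2 (t / 256) (by omega)
    rw [Nat.zero_add] at hd
    have h2 := key d (256 * (t / 256)) 256 hd (t % 256) (Nat.mod_lt _ (by norm_num))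
      (Nat.mod_lt _ (by norm_num)) (by omega)
    have h3 : a + a + 256 * (t / 256) + t % 256 = l := by omega
    rwa [h3] at h2
  · have h2 := key E (256 * n) m hb1 (t - 256 * n) (by omega) (by omega) (by omega)
    have h3 : a + a + 256 * n + (t - 256 * n) = l := by omega
    rwa [h3] at h2

end Pool.Agent.Helper916.CE
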