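import Mathlib
import Pool.Agent.Helper916.CE.Sound

set_option autoImplicit false

namespace Pool.Agent.Helper916.CE

section ev

variable {K : Type*} [Field K] (α : K)

/-- value of a bit vector -/
noncomputable def ev (n : ℕ) : K := ∑ i ∈ Finset.range 14, if n.testBit i then α ^ i else 0

theorem ev_xor [CharP K 2] (a b : ℕ) : ev α (a ^^^ b) = ev α a + ev α b := by
  unfold ev
  rw [← Finset.sum_add_distrib]
  refine Finset.sum_congr rfl fun i _ => ?_
  rw [Nat.testBit_xor]
  have h2 : α ^ i + α ^ i = 0 := CharTwo.add_self_eq_zero _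
  cases a.testBit i <;> cases b.testBit i <;> simp [h2]

theorem ev_two_mul (x : ℕ) (hx : x < 8192) : ev α (2 * x) = α * ev α x := by
  unfold ev
  have h13 : x.testBit 13 = false := Nat.testBit_lt_two_pow (by norm_num; exact hx)
  have h0 : (2 * x).testBit 0 = false := by
    simp [Nat.testBit_zero]
  have e1 : (∑ i ∈ Finset.range 14, if (2 * x).testBit i then α ^ i else 0) =
      ∑ i ∈ Finset.range 13, if (2 * x).testBit (i + 1) then α ^ (i + 1) else 0 := by
    rw [Finset.sum_range_succ', h0]
    simp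
  have e2 : (∑ i ∈ Finset.range 14, if x.testBit i then α ^ i else 0) =
      ∑ i ∈ Finset.range 13, if x.testBit i then α ^ i else 0 := by
    rw [Finset.sum_range_succ, h13]
    simp
  rw [e1, e2, Finset.mul_sum]
  refine Finset.sum_congr rfl fun i _ => ?_
  have : (2 * x).testBit (i + 1) = x.testBit i := by
    rw [Nat.testBit_succ]
    congr 1
    omega
  rw [this]
  split_ifs
  · rw [pow_succ]; ring
  · simp

theorem ev_one : ev α 1 = 1 := by
  unfold ev
  rw [Finset.sum_eq_single 0]
  · simp
  · intro i _ hi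
    have : Nat.testBit 1 i = false := by
      rw [Nat.testBit_one_eq_true_iff_self_eq_zero.not.2 hi |> Bool.eq_false_iff.2]
    simp [this]
  · simp

theorem ev_27 : ev α 27 = 1 + α + α ^ 3 + α ^ 4 := by
  unfold ev
  simp [Finset.sum_range_succ, Nat.testBit, Nat.shiftRight_eq_div_pow]

theorem ev_8192 : ev α 8192 = α ^ 13 := by
  unfold ev
  simp [Finset.sum_range_succ, Nat.testBit, Nat.shiftRight_eq_div_pow]

theorem ev_zero : ev α 0 = 0 := by
  unfold ev
  simp

theorem dbl_lt (x : ℕ) (hx : x < 8192) : dbl x < 8192 := by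
  unfold dbl
  change ((2 * x) &&& 8191) ^^^ (27 * (x >>> 12)) < 2 ^ 13
  apply Nat.xor_lt_two_pow
  · have : (8191 : ℕ) = 2 ^ 13 - 1 := rfl
    rw [this, Nat.and_two_pow_sub_one_eq_mod]
    exact Nat.mod_lt _ (by norm_num)
  · rw [Nat.shiftRight_eq_div_pow]
    have : x / 2 ^ 12 < 2 := by
      rw [Nat.div_lt_iff_lt_mul (by norm_num)]
      norm_num
      exact hx
    norm_num at this ⊢
    omega

theorem ev_dbl [CharP K 2] (hα : α ^ 13 = 1 + α + α ^ 3 + α ^ 4) (x : ℕ) (hx : x < 8192) :
    ev α (dbl x) = α * ev α x := by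
  rw [← ev_two_mul α x hx]
  unfold dbl
  change ev α (((2 * x) &&& 8191) ^^^ (27 * (x >>> 12))) = _
  rw [ev_xor]
  have e8191 : (8191 : ℕ) = 2 ^ 13 - 1 := rfl
  rw [e8191, Nat.and_two_pow_sub_one_eq_mod, Nat.shiftRight_eq_div_pow]
  rcases Nat.lt_or_ge x 4096 with h | h
  · have h1 : x / 2 ^ 12 = 0 := Nat.div_eq_of_lt (by norm_num; exact h)
    have h2 : 2 * x % 2 ^ 13 = 2 * x := Nat.mod_eq_of_lt (by norm_num; omega)
    rw [h1, h2, mul_zero, ev_zero, add_zero]
  · have h1 : x / 2 ^ 12 = 1 := by
      norm_num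
      omega
    have h2 : 2 * x % 2 ^ 13 = 2 * x - 8192 := by
      norm_num
      omega
    rw [h1, h2, mul_one, ev_27]
    have h3 : 2 * x = (2 * x - 8192) ^^^ 8192 := by
      have h4 : 2 * x - 8192 < 2 ^ 13 := by norm_num; omega
      have h5 := Nat.two_pow_add_eq_or_of_lt h4 1
      have h6 : (2 * x - 8192) ^^^ 8192 = (2 * x - 8192) ||| 8192 := by
        generalize 2 * x - 8192 = w at h4
        apply Nat.eq_of_testBit_eq
        intro i
        rw [Nat.testBit_xor, Nat.testBit_or]
        have h7 : (8192 : ℕ) = 2 ^ 13 := rfl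
        rw [h7, Nat.testBit_two_pow]
        by_cases hi : 13 = i
        · subst hi
          rw [Nat.testBit_lt_two_pow h4]
          simp
        · simp [hi]
      rw [h6, Nat.lor_comm]
      have h8 : 2 ^ 13 * 1 + (2 * x - 8192) = 2 * x := by norm_num; omega
      rw [h8] at h5
      simpa using h5
    conv_rhs => rw [h3, ev_xor, ev_8192, hα]

end ev

/-- everything about the field with 8192 elements -/
theorem field_fact : ∃ (K : Type) (_ : Field K) (α : K), (2 : K) = 0 ∧ orderOf α = 8191 ∧
    ∀ z < 8190, α ^ (V z) = 1 + α ^ (17 ^ z % 8191) := by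
  have : Fact (Nat.Prime 2) := ⟨Nat.prime_two⟩
  let K := AlgebraicClosure (ZMod 2)
  have : CharP K 2 := charP_of_injective_algebraMap (algebraMap (ZMod 2) K).injective 2
  obtain ⟨α, hα⟩ : ∃ α : K, α ^ 13 = 1 + α + α ^ 3 + α ^ 4 := by
    let f : Polynomial K := Polynomial.X ^ 13 - (Polynomial.X ^ 4 + Polynomial.X ^ 3 + Polynomial.X + 1)
    have hdeg : f.degree ≠ 0 := by
      have : f.degree = 13 := by
        simp only [f]
        compute_degree!
      rw [this]
      norm_num
    obtain ⟨α, h⟩ := IsAlgClosed.exists_root f hdeg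
    refine ⟨α, ?_⟩
    simp only [f, Polynomial.IsRoot, Polynomial.eval_sub, Polynomial.eval_add, Polynomial.eval_pow,
      Polynomial.eval_X, Polynomial.eval_one] at h
    linear_combination h
  have hE : ∀ t ≤ 8190, look ET t < 8192 ∧ ev α (look ET t) = α ^ t := by
    intro t
    induction t with
    | zero =>
      intro _
      rw [tE0]
      exact ⟨by norm_num, by rw [ev_one, pow_zero]⟩
    | succ t ih =>
      intro ht
      obtain ⟨h1, h2⟩ := ih (by omega)
      have h3 : fE t = 0 := by
        rcases Nat.lt_or_ge t 7936 with h | h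
        · exact sum2_zero tE t h
        · have := sumTo_zero tE' (t - 7936) (by omega)
          have h4 : fE (7936 + (t - 7936)) = 0 := this
          rwa [Nat.add_sub_cancel' h] at h4
      have h4 : look ET (t + 1) = dbl (look ET t) := ndist_zero h3
      rw [h4]
      exact ⟨dbl_lt _ h1, by rw [ev_dbl α hα _ h1, h2, pow_succ']⟩
  have hP : ∀ z < 8190, look PT z = 17 ^ z % 8191 := by
    intro z
    induction z with
    | zero => intro _; rw [tP0]; norm_num
    | succ z ih =>
      intro hz
      have h2 := ih (by omega)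
      have h3 : fP z = 0 := by
        rcases Nat.lt_or_ge z 7936 with h | h
        · exact sum2_zero tP z h
        · have := sumTo_zero tP' (z - 7936) (by omega)
          have h4 : fP (7936 + (z - 7936)) = 0 := this
          rwa [Nat.add_sub_cancel' h] at h4
      have h4 : look PT (z + 1) = 17 * look PT z % 8191 := ndist_zero h3
      rw [h4, h2, pow_succ', Nat.mul_mod, Nat.mod_mod, ← Nat.mul_mod]
  have h8191 : α ^ 8191 = 1 := by
    obtain ⟨h1, h2⟩ := hE 8190 le_rfl
    have h3 := ev_dbl α hα _ h1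
    rw [tE1, ev_one, h2] at h3
    rw [h3, ← pow_succ']
  have hne : α ≠ 1 := by
    intro h
    rw [h] at hα
    have h2 : (2 : K) = 0 := CharTwo.two_eq_zero
    apply one_ne_zero (α := K)
    linear_combination hα + h2 * 2
  have : Fact (Nat.Prime 8191) := ⟨by norm_num⟩
  refine ⟨K, inferInstance, α, CharTwo.two_eq_zero, orderOf_eq_prime h8191 hne, ?_⟩
  intro z hz
  have h3 : fV z = 0 := by
    rcases Nat.lt_or_ge z 7936 with h | h
    · exact sum2_zero tV z h
    · have := sumTo_zero tV' (z - 7936) (by omega)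
      have h4 : fV (7936 + (z - 7936)) = 0 := this
      rwa [Nat.add_sub_cancel' h] at h4
  have h4 : look ET (look TV z) = (look ET (look PT z)) ^^^ 1 := ndist_zero h3
  have h5 := (hE (V z) (V_bound0 z hz).2).2
  have hPz : look PT z ≤ 8190 := by
    rw [hP z hz]
    exact Nat.lt_succ_iff.1 (Nat.mod_lt _ (by norm_num))
  have h6 := (hE (look PT z) hPz).2
  have h7 := congrArg (ev α) h4
  rw [ev_xor, ev_one, h6, hP z hz] at h7
  unfold V at h5 ⊢
  rw [← h5, h7, add_comm]

end Pool.Agent.Helper916.CE
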