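import Mathlib
import Pool.Agent.Helper916.CE.Fld

set_option autoImplicit false

namespace Pool.Agent.Helper916.CE

instance fact8191 : Fact (Nat.Prime 8191) := ⟨by norm_num⟩

/-- Costas permutations of `{1, ..., 8190}` as functions on the naturals -/
structure IsC (f : ℕ → ℕ) : Prop where
  rg : ∀ i, 1 ≤ i → i ≤ 8190 → 1 ≤ f i ∧ f i ≤ 8190
  inj : ∀ i j, 1 ≤ i → i ≤ 8190 → 1 ≤ j → j ≤ 8190 → f i = f j → i = j
  cos : ∀ i j h, 1 ≤ i → 1 ≤ j → 0 < h → i + h ≤ 8190 → j + h ≤ 8190 →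
    f (i + h) + f j = f (j + h) + f i → i = j

theorem cast_ne {i : ℕ} (h1 : 1 ≤ i) (h2 : i ≤ 8190) : (i : ZMod 8191) ≠ 0 := by
  intro h
  rw [ZMod.natCast_eq_zero_iff] at h
  have := Nat.le_of_dvd (by omega) h
  omega

theorem cast_inj' {i j : ℕ} (h2 : i ≤ 8190) (h4 : j ≤ 8190)
    (h : (i : ZMod 8191) = j) : i = j := by
  rw [ZMod.natCast_eq_natCast_iff] at h
  unfold Nat.ModEq at h
  omega

/-- arrays of Welch type -/
theorem welch_isC (f : ℕ → ℕ) (γ κ : ZMod 8191) (hκ : κ ≠ 0)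
    (rg : ∀ i, 1 ≤ i → i ≤ 8190 → 1 ≤ f i ∧ f i ≤ 8190)
    (h : ∀ i, 1 ≤ i → i ≤ 8190 → γ ^ (f i) = κ * i) : IsC f := by
  refine ⟨rg, ?_, ?_⟩
  · intro i j hi1 hi2 hj1 hj2 hij
    have h1 := h i hi1 hi2
    rw [hij, h j hj1 hj2] at h1
    exact (cast_inj' hj2 hi2 (mul_left_cancel₀ hκ h1)).symm
  · intro i j d hi hj hd hid hjd e
    have h1 : γ ^ (f (i + d)) * γ ^ (f j) = γ ^ (f (j + d)) * γ ^ (f i) := by
      rw [← pow_add, ← pow_add, e]
    rw [h _ (by omega) hid, h _ hj (by omega), h _ (by omega) hjd, h _ hi (by omega)] at h1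
    push_cast at h1
    have h2 : (κ * κ * (d : ZMod 8191)) * (j : ZMod 8191) = (κ * κ * d) * i := by
      linear_combination h1
    have h3 : κ * κ * (d : ZMod 8191) ≠ 0 :=
      mul_ne_zero (mul_ne_zero hκ hκ) (cast_ne hd (by omega))
    exact (cast_inj' (by omega) (by omega) (mul_left_cancel₀ h3 h2)).symm

/-- arrays of Golomb type -/
theorem golomb_isC {K : Type} [Field K] (f : ℕ → ℕ) (α β : K) (hα : orderOf α = 8191)
    (rg : ∀ i, 1 ≤ i → i ≤ 8190 → 1 ≤ f i ∧ f i ≤ 8190)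
    (h : ∀ i, 1 ≤ i → i ≤ 8190 → β ^ (f i) = 1 + α ^ i) : IsC f := by
  have hinj : ∀ i j, i ≤ 8190 → j ≤ 8190 → α ^ i = α ^ j → i = j := by
    intro i j hi hj e
    exact pow_injOn_Iio_orderOf (by rw [hα]; exact Set.mem_Iio.2 (by omega))
      (by rw [hα]; exact Set.mem_Iio.2 (by omega)) e
  refine ⟨rg, ?_, ?_⟩
  · intro i j hi1 hi2 hj1 hj2 hij
    have h1 := h i hi1 hi2
    rw [hij, h j hj1 hj2] at h1
    exact (hinj j i hj2 hi2 (add_left_cancel h1)).symm
  · intro i j d hi hj hd hid hjd e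
    have h1 : β ^ (f (i + d)) * β ^ (f j) = β ^ (f (j + d)) * β ^ (f i) := by
      rw [← pow_add, ← pow_add, e]
    rw [h _ (by omega) hid, h _ hj (by omega), h _ (by omega) hjd, h _ hi (by omega)] at h1
    have h2 : (α ^ i - α ^ j) * (α ^ d - 1) = 0 := by
      rw [pow_add, pow_add] at h1
      linear_combination h1
    rcases mul_eq_zero.1 h2 with h3 | h3
    · exact hinj i j (by omega) (by omega) (sub_eq_zero.1 h3)
    · exfalso
      have := hinj d 0 (by omega) (by omega) (by rw [pow_zero]; exact sub_eq_zero.1 h3)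
      omega

theorem pow17 : (17 : ZMod 8191) ^ 8190 = 1 := by
  have h : 17 ^ 8190 % 8191 = 1 := by decide +kernel
  have h2 : ((17 ^ 8190 : ℕ) : ZMod 8191) = ((1 : ℕ) : ZMod 8191) := by
    rw [ZMod.natCast_eq_natCast_iff]
    exact h
  exact_mod_cast h2

theorem pow17_ne (m : ℕ) (h : Nat.beq (Nat.mod (Nat.pow 17 m) 8191) 1 = false) :
    (17 : ZMod 8191) ^ m ≠ 1 := by
  intro h2
  have h3 : ((17 ^ m : ℕ) : ZMod 8191) = ((1 : ℕ) : ZMod 8191) := by
    push_cast; exact h2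
  rw [ZMod.natCast_eq_natCast_iff] at h3
  have h4 : Nat.mod (Nat.pow 17 m) 8191 = 1 := h3
  rw [h4] at h
  exact absurd h (by decide)

theorem order17 : orderOf (17 : ZMod 8191) = 8190 := by
  apply orderOf_eq_of_pow_and_pow_div_prime (by norm_num) pow17
  intro p hp hd
  have h8190 : (8190 : ℕ) = 2 * 3 * 3 * 5 * 7 * 13 := by norm_num
  rw [h8190] at hd
  have hcases : p = 2 ∨ p = 3 ∨ p = 5 ∨ p = 7 ∨ p = 13 := by
    rcases (Nat.Prime.dvd_mul hp).1 hd with h | h
    · rcases (Nat.Prime.dvd_mul hp).1 h with h | h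
      · rcases (Nat.Prime.dvd_mul hp).1 h with h | h
        · rcases (Nat.Prime.dvd_mul hp).1 h with h | h
          · rcases (Nat.Prime.dvd_mul hp).1 h with h | h
            · left; exact (Nat.prime_dvd_prime_iff_eq hp Nat.prime_two).1 h
            · right; left; exact (Nat.prime_dvd_prime_iff_eq hp Nat.prime_three).1 h
          · right; left; exact (Nat.prime_dvd_prime_iff_eq hp Nat.prime_three).1 h
        · right; right; left; exact (Nat.prime_dvd_prime_iff_eq hp (by norm_num)).1 h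
      · right; right; right; left; exact (Nat.prime_dvd_prime_iff_eq hp (by norm_num)).1 h
    · right; right; right; right; exact (Nat.prime_dvd_prime_iff_eq hp (by norm_num)).1 h
  rcases hcases with rfl | rfl | rfl | rfl | rfl
  · exact pow17_ne 4095 (by decide +kernel)
  · exact pow17_ne 2730 (by decide +kernel)
  · exact pow17_ne 1638 (by decide +kernel)
  · exact pow17_ne 1170 (by decide +kernel)
  · exact pow17_ne 630 (by decide +kernel)

theorem exists_log (i : ℕ) (h1 : 1 ≤ i) (h2 : i ≤ 8190) :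
    ∃ z, z < 8190 ∧ (17 : ZMod 8191) ^ z = i := by
  have hinj : Set.InjOn (fun z => (17 : ZMod 8191) ^ z) (Finset.range 8190 : Finset ℕ) := by
    intro a ha b hb hab
    simp only [Finset.coe_range, Set.mem_Iio] at ha hb
    exact pow_injOn_Iio_orderOf (by rw [order17]; exact ha) (by rw [order17]; exact hb) hab
  have hcard : ((Finset.range 8190).image (fun z => (17 : ZMod 8191) ^ z)).card = 8190 := by
    rw [Finset.card_image_of_injOn hinj, Finset.card_range]
  have hsub : (Finset.range 8190).image (fun z => (17 : ZMod 8191) ^ z) ⊆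
      Finset.univ.erase (0 : ZMod 8191) := by
    intro x hx
    obtain ⟨z, _, rfl⟩ := Finset.mem_image.1 hx
    apply Finset.mem_erase.2
    refine ⟨?_, Finset.mem_univ _⟩
    apply pow_ne_zero
    exact_mod_cast cast_ne (i := 17) (by norm_num) (by norm_num)
  have heq := Finset.eq_of_subset_of_card_le hsub (by
    rw [hcard, Finset.card_erase_of_mem (Finset.mem_univ _), Finset.card_univ, ZMod.card])
  have hi : (i : ZMod 8191) ∈ (Finset.range 8190).image (fun z => (17 : ZMod 8191) ^ z) := by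
    rw [heq]
    exact Finset.mem_erase.2 ⟨cast_ne h1 h2, Finset.mem_univ _⟩
  obtain ⟨z, hz, hz'⟩ := Finset.mem_image.1 hi
  exact ⟨z, Finset.mem_range.1 hz, hz'⟩

/-- discrete logarithm -/
noncomputable def L (i : ℕ) : ℕ :=
  if h : 1 ≤ i ∧ i ≤ 8190 then (exists_log i h.1 h.2).choose else 0

theorem L_lt {i : ℕ} (h1 : 1 ≤ i) (h2 : i ≤ 8190) : L i < 8190 := by
  unfold L
  rw [dif_pos ⟨h1, h2⟩]
  exact (exists_log i h1 h2).choose_spec.1

theorem L_pow {i : ℕ} (h1 : 1 ≤ i) (h2 : i ≤ 8190) : (17 : ZMod 8191) ^ (L i) = i := by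
  unfold L
  rw [dif_pos ⟨h1, h2⟩]
  exact (exists_log i h1 h2).choose_spec.2

theorem pow17_mod (z : ℕ) : (17 : ZMod 8191) ^ (z % 8190) = 17 ^ z := by
  conv_rhs => rw [← Nat.div_add_mod z 8190, pow_add, pow_mul, pow17, one_pow, one_mul]

theorem pow17_congr {z w : ℕ} (h : z % 8190 = w % 8190) : (17 : ZMod 8191) ^ z = 17 ^ w := by
  rw [← pow17_mod z, h, pow17_mod]

theorem L_inj {i j : ℕ} (h1 : 1 ≤ i) (h2 : i ≤ 8190) (h3 : 1 ≤ j) (h4 : j ≤ 8190)
    (h : L i = L j) : i = j := by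
  have e1 := L_pow h1 h2
  rw [h, L_pow h3 h4] at e1
  exact (cast_inj' h4 h2 e1).symm

/-- the logarithmic Welch array -/
noncomputable def W (e c i : ℕ) : ℕ := (e * L i + c + 8189) % 8190 + 1

theorem W_rg (e c i : ℕ) : 1 ≤ W e c i ∧ W e c i ≤ 8190 := by
  unfold W
  omega

theorem W_mod (e c i : ℕ) : W e c i % 8190 = (e * L i + c) % 8190 := by
  unfold W
  omega

theorem W_welch (e c : ℕ) (he : Nat.Coprime e 8190) : ∃ γ κ : ZMod 8191, γ ≠ 0 ∧ κ ≠ 0 ∧
    ∀ i, 1 ≤ i → i ≤ 8190 → γ ^ (W e c i) = κ * i := by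
  obtain ⟨e', -, he'⟩ := Nat.exists_mul_mod_eq_one_of_coprime he (by norm_num)
  have h17 : (17 : ZMod 8191) ≠ 0 := by
    exact_mod_cast cast_ne (i := 17) (by norm_num) (by norm_num)
  refine ⟨17 ^ e', 17 ^ (e' * c), pow_ne_zero _ h17, pow_ne_zero _ h17, ?_⟩
  intro i h1 h2
  rw [← pow_mul, ← L_pow h1 h2, ← pow_add]
  apply pow17_congr
  have h3 : e' * W e c i ≡ e' * (e * L i + c) [MOD 8190] :=
    Nat.ModEq.mul_left _ (W_mod e c i)
  have h4 : e' * (e * L i + c) = (e * e') * L i + e' * c := by ring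
  rw [h4] at h3
  refine h3.trans ?_
  have h5 : e * e' ≡ 1 [MOD 8190] := by
    rw [Nat.ModEq, he']
  have h6 := (h5.mul_right (L i)).add_right (e' * c)
  rw [one_mul, add_comm (L i)] at h6
  exact h6

end Pool.Agent.Helper916.CE
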