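import Mathlib
import Pool.Agent.Helper916.CE.Arr
import Pool.Agent.Helper916.CE.AllRows

set_option autoImplicit false

namespace Pool.Agent.Helper916.CE

theorem pow_cong {K : Type} [Field K] {ω : K} (hω : orderOf ω = 8191) {x y : ℕ}
    (h : x ≡ y [MOD 8191]) : ω ^ x = ω ^ y := by
  rw [← pow_mod_orderOf ω x, ← pow_mod_orderOf ω y, hω, h]

theorem pow_cong' {K : Type} [Field K] {ω : K} (hω : orderOf ω = 8191) {x y : ℕ}
    (h : ω ^ x = ω ^ y) : x ≡ y [MOD 8191] := by
  rw [← pow_mod_orderOf ω x, ← pow_mod_orderOf ω y, hω] at h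
  exact pow_injOn_Iio_orderOf (by rw [hω]; exact Set.mem_Iio.2 (Nat.mod_lt _ (by norm_num)))
      (by rw [hω]; exact Set.mem_Iio.2 (Nat.mod_lt _ (by norm_num))) h

/-- the Golomb array -/
noncomputable def G (r σ i : ℕ) : ℕ := (r * V ((σ + L i) % 8190)) % 8191

theorem G_rg (r σ i : ℕ) (hr : ¬ 8191 ∣ r) : 1 ≤ G r σ i ∧ G r σ i ≤ 8190 := by
  unfold G
  obtain ⟨h1, h2⟩ := V_bound0 ((σ + L i) % 8190) (Nat.mod_lt _ (by norm_num))
  have h3 : ¬ 8191 ∣ r * V ((σ + L i) % 8190) := by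
    intro h
    rcases (Nat.Prime.dvd_mul (by norm_num : Nat.Prime 8191)).1 h with h4 | h4
    · exact hr h4
    · have := Nat.le_of_dvd (by omega) h4
      omega
  have h4 : r * V ((σ + L i) % 8190) % 8191 ≠ 0 := fun h => h3 (Nat.dvd_of_mod_eq_zero h)
  have h5 : r * V ((σ + L i) % 8190) % 8191 < 8191 := Nat.mod_lt _ (by norm_num)
  omega

theorem G_golomb (r σ : ℕ) (hr : ¬ 8191 ∣ r) : ∃ (K : Type) (_ : Field K) (α β : K),
    (2 : K) = 0 ∧ orderOf α = 8191 ∧ orderOf β = 8191 ∧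
    ∀ i, 1 ≤ i → i ≤ 8190 → β ^ (G r σ i) = 1 + α ^ i := by
  obtain ⟨K, hK, ω, h2, hω, hV⟩ := field_fact
  have hp : Nat.Prime 8191 := by norm_num
  have hcop : Nat.Coprime r 8191 := ((Nat.Prime.coprime_iff_not_dvd hp).2 hr).symm
  obtain ⟨r', -, hr'⟩ := Nat.exists_mul_mod_eq_one_of_coprime hcop (by norm_num)
  have hω1 : ω ^ 8191 = 1 := by rw [← hω]; exact pow_orderOf_eq_one ω
  have hcong : ∀ x y : ℕ, x ≡ y [MOD 8191] → ω ^ x = ω ^ y := by
    intro x y h
    exact pow_cong hω h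
  have hc1 : Nat.Coprime 8191 (17 ^ σ) := Nat.Coprime.pow_right _ (by norm_num)
  have hc2 : Nat.Coprime 8191 r' := by
    rw [Nat.Prime.coprime_iff_not_dvd hp]
    intro h
    have : r * r' % 8191 = 0 := Nat.mod_eq_zero_of_dvd (h.mul_left _)
    omega
  refine ⟨K, hK, ω ^ (17 ^ σ), ω ^ r', h2, ?_, ?_, ?_⟩
  · rw [Nat.Coprime.orderOf_pow (by rw [hω]; exact hc1), hω]
  · rw [Nat.Coprime.orderOf_pow (by rw [hω]; exact hc2), hω]
  · intro i hi1 hi2
    rw [← pow_mul, ← pow_mul]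
    set z := (σ + L i) % 8190 with hz
    have h3 := hV z (Nat.mod_lt _ (by norm_num))
    have e1 : ω ^ (r' * G r σ i) = ω ^ (V z) := by
      apply hcong
      unfold G
      rw [← hz]
      have e2 : r' * (r * V z % 8191) ≡ r' * (r * V z) [MOD 8191] :=
        Nat.ModEq.mul_left _ (Nat.mod_modEq _ _)
      have e3 : r' * (r * V z) = (r * r') * V z := by ring
      rw [e3] at e2
      have e4 : r * r' ≡ 1 [MOD 8191] := by rw [Nat.ModEq, hr']
      have e5 := e4.mul_right (V z)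
      rw [one_mul] at e5
      exact e2.trans e5
    rw [e1, h3]
    congr 1
    apply hcong
    -- 17^z ≡ 17^σ i
    refine (Nat.mod_modEq _ _).trans ?_
    rw [← ZMod.natCast_eq_natCast_iff]
    push_cast
    rw [← L_pow hi1 hi2, ← pow_add]
    apply pow17_congr
    rw [hz, Nat.mod_mod]

/-- doubling -/
theorem G_double (r σ : ℕ) (hr : ¬ 8191 ∣ r) (i : ℕ) (hi1 : 1 ≤ i) (hi2 : i ≤ 8190) :
    G r σ ((2 * i) % 8191) = (2 * G r σ i) % 8191 := by
  obtain ⟨K, hK, α, β, h2, hα, hβ, h⟩ := G_golomb r σ hr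
  have hd1 : 1 ≤ (2 * i) % 8191 := by omega
  have hd2 : (2 * i) % 8191 ≤ 8190 := by omega
  have e1 := h _ hd1 hd2
  have e2 : α ^ ((2 * i) % 8191) = α ^ (2 * i) := by
    exact pow_cong hα (Nat.mod_modEq _ _)
  rw [e2] at e1
  have e3 : β ^ (2 * G r σ i) = 1 + α ^ (2 * i) := by
    rw [mul_comm 2, pow_mul, h i hi1 hi2, mul_comm 2 i, pow_mul]
    linear_combination (α ^ i) * h2
  rw [← e3] at e1
  have e4 := pow_cong' hβ e1
  have h5 := (G_rg r σ ((2 * i) % 8191) hr).2
  unfold Nat.ModEq at e4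
  omega

theorem IsC.surj {f : ℕ → ℕ} (hf : IsC f) (v : ℕ) (h1 : 1 ≤ v) (h2 : v ≤ 8190) :
    ∃ i, 1 ≤ i ∧ i ≤ 8190 ∧ f i = v := by
  have hinj : Set.InjOn f (Finset.Icc 1 8190 : Finset ℕ) := by
    intro a ha b hb hab
    simp only [Finset.coe_Icc, Set.mem_Icc] at ha hb
    exact hf.inj a b ha.1 ha.2 hb.1 hb.2 hab
  have hsub : (Finset.Icc 1 8190).image f ⊆ Finset.Icc 1 8190 := by
    intro x hx
    obtain ⟨i, hi, rfl⟩ := Finset.mem_image.1 hx
    rw [Finset.mem_Icc] at hi ⊢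
    exact hf.rg i hi.1 hi.2
  have heq := Finset.eq_of_subset_of_card_le hsub (by rw [Finset.card_image_of_injOn hinj])
  have hv : v ∈ (Finset.Icc 1 8190).image f := by
    rw [heq]; exact Finset.mem_Icc.2 ⟨h1, h2⟩
  obtain ⟨i, hi, hi'⟩ := Finset.mem_image.1 hv
  rw [Finset.mem_Icc] at hi
  exact ⟨i, hi.1, hi.2, hi'⟩

/-- a Golomb array is not a Welch array -/
theorem G_ne_W (r σ e c : ℕ) (hr : ¬ 8191 ∣ r) (he : Nat.Coprime e 8190) :
    ∃ i, 1 ≤ i ∧ i ≤ 8190 ∧ G r σ i ≠ W e c i := by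
  by_contra hcon
  push Not at hcon
  obtain ⟨γ, κ, hγ, hκ, h⟩ := W_welch e c he
  have hG : IsC (G r σ) := by
    obtain ⟨K, hK, α, β, h2, hα, hβ, h'⟩ := G_golomb r σ hr
    exact golomb_isC (G r σ) α β hα (fun i _ _ => G_rg r σ i hr) h'
  obtain ⟨i, hi1, hi2, hi3⟩ := hG.surj 1 (by norm_num) (by norm_num)
  have hd := G_double r σ hr i hi1 hi2
  rw [hi3] at hd
  set j := (2 * i) % 8191 with hj
  have hj1 : 1 ≤ j := by omega
  have hj2 : j ≤ 8190 := by omega
  have hd' : G r σ j = 2 := by rw [hd]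
  have hdd := G_double r σ hr j hj1 hj2
  rw [hd'] at hdd
  set l := (2 * j) % 8191 with hl
  have hl1 : 1 ≤ l := by omega
  have hl2 : l ≤ 8190 := by omega
  have hdd' : G r σ l = 4 := by rw [hdd]
  have e1 := h i hi1 hi2
  have e2 := h j hj1 hj2
  have e3 := h l hl1 hl2
  rw [← hcon i hi1 hi2, hi3, pow_one] at e1
  rw [← hcon j hj1 hj2, hd'] at e2
  rw [← hcon l hl1 hl2, hdd'] at e3
  have cj : (j : ZMod 8191) = 2 * i := by
    rw [hj, ZMod.natCast_mod]
    push_cast; ring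
  have cl : (l : ZMod 8191) = 4 * i := by
    rw [hl, ZMod.natCast_mod]
    push_cast
    rw [cj]; ring
  rw [cj] at e2
  rw [cl] at e3
  have h2 : γ = 2 := by
    have : γ * γ = 2 * γ := by
      have e4 : γ ^ 2 = 2 * (κ * i) := by rw [e2]; ring
      rw [← e1] at e4
      linear_combination e4
    exact mul_right_cancel₀ hγ this
  have h3 : γ ^ 4 = 4 * γ := by
    rw [e3, e1]; ring
  rw [h2] at h3
  have h4 : ((16 : ℕ) : ZMod 8191) = ((8 : ℕ) : ZMod 8191) := by
    push_cast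
    linear_combination h3
  rw [ZMod.natCast_eq_natCast_iff] at h4
  exact absurd h4 (by decide)

/-- the conclusion for a triple -/
def Coll (i j k : ℕ) : Prop :=
  ∃ f g : ℕ → ℕ, IsC f ∧ IsC g ∧ f i = g i ∧ f j = g j ∧ f k = g k ∧
    ∃ x, 1 ≤ x ∧ x ≤ 8190 ∧ f x ≠ g x

theorem W_isC (e c : ℕ) (he : Nat.Coprime e 8190) : IsC (W e c) := by
  obtain ⟨γ, κ, hγ, hκ, h⟩ := W_welch e c he
  exact welch_isC (W e c) γ κ hκ (fun i _ _ => W_rg e c i) h

theorem W_eq_of_mod {e c i B : ℕ} (h : (e * L i + c) % 8190 = B % 8190) (h1 : 1 ≤ B)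
    (h2 : B ≤ 8190) : W e c i = B := by
  unfold W
  omega

theorem L_one : L 1 = 0 := by
  have h1 := L_pow (i := 1) (by norm_num) (by norm_num)
  have h2 := L_lt (i := 1) (by norm_num) (by norm_num)
  have h3 : (17 : ZMod 8191) ^ (L 1) = 17 ^ 0 := by rw [h1, pow_zero]; norm_num
  exact pow_injOn_Iio_orderOf (by rw [order17]; exact h2) (by rw [order17]; norm_num) h3

theorem L_17 : L 17 = 1 := by
  have h1 := L_pow (i := 17) (by norm_num) (by norm_num)
  have h2 := L_lt (i := 17) (by norm_num) (by norm_num)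
  have h3 : (17 : ZMod 8191) ^ (L 17) = 17 ^ 1 := by rw [h1, pow_one]; norm_num
  exact pow_injOn_Iio_orderOf (by rw [order17]; exact h2) (by rw [order17]; norm_num) h3

/-- two logarithmic Welch arrays -/
theorem coll_log (q M i j k : ℕ) (hM : M * q = 8190) (hco : Nat.Coprime (1 + M) 8190)
    (hM1 : 0 < M) (hM2 : M < 8190)
    (hi : 1 ≤ i ∧ i ≤ 8190) (hj : 1 ≤ j ∧ j ≤ 8190) (hk : 1 ≤ k ∧ k ≤ 8190) (a b : ℕ)
    (h1 : L j % 8190 = (L i + a) % 8190) (h2 : L k % 8190 = (L i + b) % 8190)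
    (ha : q ∣ a) (hb : q ∣ b) : Coll i j k := by
  have hLi := L_lt hi.1 hi.2
  set c := L i + (1 + M) * (8190 - L i) with hc
  have hkey : ∀ x d, L x % 8190 = (L i + d) % 8190 → q ∣ d → 
      ((1 + M) * L x + c) % 8190 = (L x) % 8190 := by
    intro x d hx hd
    obtain ⟨d', rfl⟩ := hd
    have e1 : (1 + M) * L x ≡ (1 + M) * (L i + q * d') [MOD 8190] := Nat.ModEq.mul_left _ hx
    have e2 : (1 + M) * L x + c ≡ (1 + M) * (L i + q * d') + c [MOD 8190] := e1.add_right _
    have e3 : (1 + M) * (L i + q * d') + c = (L i + q * d') + 8190 * (d' + (1 + M)) := by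
      rw [hc]
      have : (1 + M) * (L i) + (1 + M) * (8190 - L i) = (1 + M) * 8190 := by
        rw [← mul_add, Nat.add_sub_cancel' hLi.le]
      calc (1 + M) * (L i + q * d') + (L i + (1 + M) * (8190 - L i))
          = ((1 + M) * (L i) + (1 + M) * (8190 - L i)) + (q * d' + (M * q) * d' + L i) := by ring
        _ = (1 + M) * 8190 + (q * d' + 8190 * d' + L i) := by rw [this, hM]
        _ = _ := by ring
    rw [e3] at e2
    have e4 : (L i + q * d') + 8190 * (d' + (1 + M)) ≡ L i + q * d' [MOD 8190] := by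
      unfold Nat.ModEq
      rw [Nat.add_mul_mod_self_left]
    exact (e2.trans e4).trans hx.symm
  have hW : ∀ x d, L x % 8190 = (L i + d) % 8190 → q ∣ d → W 1 0 x = W (1 + M) c x := by
    intro x d hx hd
    have e1 := hkey x d hx hd
    unfold W
    omega
  refine ⟨W 1 0, W (1 + M) c, W_isC _ _ (by norm_num), W_isC _ _ hco, ?_, hW j a h1 ha,
    hW k b h2 hb, ?_⟩
  · exact hW i 0 rfl (dvd_zero _)
  · by_contra hcon
    push Not at hcon
    have e1 := hcon 1 (by norm_num) (by norm_num)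
    have e2 := hcon 17 (by norm_num) (by norm_num)
    unfold W at e1 e2
    rw [L_one] at e1
    rw [L_17] at e2
    omega

/-- the oriented statement -/
theorem coll_of_cls (i j k a b : ℕ) (hi : 1 ≤ i ∧ i ≤ 8190) (hj : 1 ≤ j ∧ j ≤ 8190)
    (hk : 1 ≤ k ∧ k ≤ 8190)
    (h1 : L j % 8190 = (L i + a) % 8190) (h2 : L k % 8190 = (L i + b) % 8190)
    (hc : Cls a b) : Coll i j k := by
  have hLi := L_lt hi.1 hi.2
  rcases hc with hg | ⟨y, r, e, he, hr, hB, hC⟩
  · set h := Nat.gcd (Nat.gcd a 8190) b with hh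
    have hha : h ∣ a := (Nat.gcd_dvd_left _ _).trans (Nat.gcd_dvd_left _ _)
    have hhb : h ∣ b := Nat.gcd_dvd_right _ _
    have hhN : h ∣ 8190 := (Nat.gcd_dvd_left _ _).trans (Nat.gcd_dvd_right _ _)
    by_cases h3 : 3 ∣ h
    · exact coll_log 3 2730 i j k (by norm_num) (by norm_num) (by norm_num) (by norm_num)
        hi hj hk a b h1 h2 (h3.trans hha) (h3.trans hhb)
    by_cases h5 : 5 ∣ h
    · exact coll_log 5 1638 i j k (by norm_num) (by norm_num) (by norm_num) (by norm_num)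
        hi hj hk a b h1 h2 (h5.trans hha) (h5.trans hhb)
    by_cases h7 : 7 ∣ h
    · exact coll_log 7 1170 i j k (by norm_num) (by norm_num) (by norm_num) (by norm_num)
        hi hj hk a b h1 h2 (h7.trans hha) (h7.trans hhb)
    by_cases h13 : 13 ∣ h
    · exact coll_log 13 630 i j k (by norm_num) (by norm_num) (by norm_num) (by norm_num)
        hi hj hk a b h1 h2 (h13.trans hha) (h13.trans hhb)
    exfalso
    have c3 : Nat.Coprime h 3 := ((Nat.Prime.coprime_iff_not_dvd (by norm_num)).2 h3).symm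
    have c5 : Nat.Coprime h 5 := ((Nat.Prime.coprime_iff_not_dvd (by norm_num)).2 h5).symm
    have c7 : Nat.Coprime h 7 := ((Nat.Prime.coprime_iff_not_dvd (by norm_num)).2 h7).symm
    have c13 : Nat.Coprime h 13 := ((Nat.Prime.coprime_iff_not_dvd (by norm_num)).2 h13).symm
    have call : Nat.Coprime h (3 * 3 * 5 * 7 * 13) :=
      (((c3.mul_right c3).mul_right c5).mul_right c7).mul_right c13
    have h4 : h ∣ 2 := call.dvd_of_dvd_mul_right (by
      have : (2 * (3 * 3 * 5 * 7 * 13) : ℕ) = 8190 := by norm_num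
      rw [this]; exact hhN)
    have := Nat.le_of_dvd (by norm_num) h4
    omega
  · set A := r * V (y % 8190) % 8191 with hA
    set σ := y + (8190 - L i) with hσ
    set c := A + e * (8190 - L i) with hcdef
    have hGi : G r σ i = A := by
      unfold G
      have : (σ + L i) % 8190 = y % 8190 := by omega
      rw [this]
    have hGj : G r σ j = r * V ((y + a) % 8190) % 8191 := by
      unfold G
      have : (σ + L j) % 8190 = (y + a) % 8190 := by omega
      rw [this]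
    have hGk : G r σ k = r * V ((y + b) % 8190) % 8191 := by
      unfold G
      have : (σ + L k) % 8190 = (y + b) % 8190 := by omega
      rw [this]
    have hWx : ∀ x d, L x % 8190 = (L i + d) % 8190 →
        (e * L x + c) % 8190 = (A + e * d) % 8190 := by
      intro x d hx
      have e1 : e * L x ≡ e * (L i + d) [MOD 8190] := Nat.ModEq.mul_left _ hx
      have e2 : e * L x + c ≡ e * (L i + d) + c [MOD 8190] := e1.add_right _
      have e3 : e * (L i + d) + c = (A + e * d) + 8190 * e := by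
        rw [hcdef]
        have : e * (L i) + e * (8190 - L i) = e * 8190 := by
          rw [← mul_add, Nat.add_sub_cancel' hLi.le]
        calc e * (L i + d) + (A + e * (8190 - L i)) = (e * (L i) + e * (8190 - L i)) + (A + e * d) := by
              ring
          _ = _ := by rw [this]; ring
      rw [e3] at e2
      have e4 : (A + e * d) + 8190 * e ≡ A + e * d [MOD 8190] := by
        unfold Nat.ModEq
        rw [Nat.add_mul_mod_self_left]
      exact e2.trans e4
    have hG : IsC (G r σ) := by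
      obtain ⟨K, hK, α, β, h2, hα, hβ, h'⟩ := G_golomb r σ hr
      exact golomb_isC (G r σ) α β hα (fun i _ _ => G_rg r σ i hr) h'
    refine ⟨G r σ, W e c, hG, W_isC e c he, ?_, ?_, ?_, G_ne_W r σ e c hr he⟩
    · symm
      apply W_eq_of_mod
      · rw [hWx i 0 rfl, mul_zero, add_zero, hGi]
      · exact (G_rg r σ i hr).1
      · exact (G_rg r σ i hr).2
    · symm
      apply W_eq_of_mod
      · rw [hWx j a h1, hGj]; exact hB
      · exact (G_rg r σ j hr).1
      · exact (G_rg r σ j hr).2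
    · symm
      apply W_eq_of_mod
      · rw [hWx k b h2, hGk]; exact hC
      · exact (G_rg r σ k hr).1
      · exact (G_rg r σ k hr).2

theorem Coll.rot {i j k : ℕ} (h : Coll i j k) : Coll j k i := by
  obtain ⟨f, g, hf, hg, h1, h2, h3, h4⟩ := h
  exact ⟨f, g, hf, hg, h2, h3, h1, h4⟩

theorem Coll.swap {i j k : ℕ} (h : Coll i j k) : Coll j i k := by
  obtain ⟨f, g, hf, hg, h1, h2, h3, h4⟩ := h
  exact ⟨f, g, hf, hg, h2, h1, h3, h4⟩

/-- the smallest gap first -/
theorem coll_gap (i j k a b : ℕ) (hi : 1 ≤ i ∧ i ≤ 8190) (hj : 1 ≤ j ∧ j ≤ 8190)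
    (hk : 1 ≤ k ∧ k ≤ 8190)
    (h1 : L j % 8190 = (L i + a) % 8190) (h2 : L k % 8190 = (L i + (a + b)) % 8190)
    (ha : 1 ≤ a) (hab : a ≤ b) (hs : a + (a + b) ≤ 8190) : Coll i j k := by
  obtain ⟨y0, S, Q, E, m, B, hy, hn, hm, hrow⟩ := allRows a ha (by omega)
  have hcls := row_sound a y0 S Q E m B ha (by omega) hy hn hm hrow (a + b) (by omega) (by omega)
  exact coll_of_cls i j k a (a + b) hi hj hk h1 h2 hcls

theorem coll_sorted (i j k : ℕ) (hi : 1 ≤ i ∧ i ≤ 8190) (hj : 1 ≤ j ∧ j ≤ 8190)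
    (hk : 1 ≤ k ∧ k ≤ 8190) (h1 : L i < L j) (h2 : L j < L k) : Coll i j k := by
  have hLi := L_lt hi.1 hi.2
  have hLj := L_lt hj.1 hj.2
  have hLk := L_lt hk.1 hk.2
  set g1 := L j - L i with hg1
  set g2 := L k - L j with hg2
  set g3 := 8190 - (L k - L i) with hg3
  rcases Nat.lt_or_ge g2 g1 with c1 | c1
  · rcases Nat.lt_or_ge g3 g2 with c2 | c2
    · -- g3 smallest
      exact (coll_gap k i j g3 g1 hk hi hj (by omega) (by omega) (by omega) (by omega)
        (by omega)).rot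
    · -- g2 smallest
      exact (coll_gap j k i g2 g3 hj hk hi (by omega) (by omega) (by omega) (by omega)
        (by omega)).rot.rot
  · rcases Nat.lt_or_ge g3 g1 with c2 | c2
    · exact (coll_gap k i j g3 g1 hk hi hj (by omega) (by omega) (by omega) (by omega)
        (by omega)).rot
    · exact coll_gap i j k g1 g2 hi hj hk (by omega) (by omega) (by omega) (by omega) (by omega)

/-- any three positions -/
theorem coll_all (i j k : ℕ) (hi : 1 ≤ i ∧ i ≤ 8190) (hj : 1 ≤ j ∧ j ≤ 8190)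
    (hk : 1 ≤ k ∧ k ≤ 8190) (hij : i ≠ j) (hik : i ≠ k) (hjk : j ≠ k) : Coll i j k := by
  have n1 : L i ≠ L j := fun h => hij (L_inj hi.1 hi.2 hj.1 hj.2 h)
  have n2 : L i ≠ L k := fun h => hik (L_inj hi.1 hi.2 hk.1 hk.2 h)
  have n3 : L j ≠ L k := fun h => hjk (L_inj hj.1 hj.2 hk.1 hk.2 h)
  rcases lt_or_gt_of_ne n1 with a1 | a1 <;> rcases lt_or_gt_of_ne n2 with a2 | a2 <;>
    rcases lt_or_gt_of_ne n3 with a3 | a3
  · exact coll_sorted i j k hi hj hk a1 a3
  · -- i < k < j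
    exact (coll_sorted i k j hi hk hj a2 a3).rot.rot.swap
  · omega
  · -- k < i < j
    exact (coll_sorted k i j hk hi hj a2 a1).rot
  · -- j < i < k
    exact (coll_sorted j i k hj hi hk a1 a2).swap
  · omega
  · -- j < k < i
    exact (coll_sorted j k i hj hk hi a3 a2).rot.rot
  · -- k < j < i
    exact (coll_sorted k j i hk hj hi a3 a1).rot.swap

end Pool.Agent.Helper916.CE
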